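import Pool.Agent.Q35.HB.Stm

/-! Project HB (helper35), JOB FRL (homomorphisms from the function field of a hypersurface). -/

set_option autoImplicit false

namespace Pool.Agent.Q299.HB

open MvPolynomial Pool.Agent.Q35.HB

theorem frl : S_FRL := by
  intro ι k K E _ _ _ _ F x hx ψ hψ
  let A : Subalgebra k K := (aeval x : MvPolynomial ι k →ₐ[k] K).range
  let p : MvPolynomial ι k →+* A := ((aeval x : MvPolynomial ι k →ₐ[k] K).rangeRestrict : _ →ₐ[k] _)
  have hp : Function.Surjective p := AlgHom.rangeRestrict_surjective (aeval x)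
  have hpv : ∀ f, (algebraMap A K) (p f) = aeval x f := fun f => rfl
  have hp0 : ∀ f, p f = 0 ↔ F ∣ f := by
    intro f
    rw [← hx.ker f, ← hpv]
    exact (map_eq_zero_iff (algebraMap A K) Subtype.val_injective).symm
  have hker : RingHom.ker p ≤ RingHom.ker ψ := by
    intro f hf
    rw [RingHom.mem_ker] at hf ⊢
    exact (hψ f).2 ((hp0 f).1 hf)
  let g : A →+* E := p.liftOfSurjective hp ⟨ψ, hker⟩
  have hg : ∀ f, g (p f) = ψ f := fun f => by
    have := RingHom.liftOfRightInverse_comp_apply p _ (Function.rightInverse_surjInv hp) ⟨ψ, hker⟩ f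
    exact this
  have hinj : Function.Injective g := by
    rw [injective_iff_map_eq_zero]
    intro a ha
    obtain ⟨f, rfl⟩ := hp a
    rw [hg] at ha
    exact (hp0 f).2 ((hψ f).1 ha)
  have hfr : IsFractionRing A K := by
    refine IsFractionRing.of_field A K fun z => ?_
    have hz : z ∈ IntermediateField.adjoin k (Set.range x) := by
      rw [hx.top]
      trivial
    obtain ⟨r, s, hrs⟩ := (IntermediateField.mem_adjoin_range_iff k x z).1 hz
    exact ⟨p r, p s, by rw [hpv, hpv]; exact hrs⟩
  refine ⟨IsFractionRing.lift hinj, fun f => ?_⟩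
  rw [← hpv, IsFractionRing.lift_algebraMap, hg]

end Pool.Agent.Q299.HB
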