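import Pool.Agent.Q35.HB.Stm

/-! Project HB (helper35), JOB MAT (exchange). -/

set_option autoImplicit false

namespace Pool.Agent.Q299.HB

open Pool.Agent.Q35.HB

open scoped IntermediateField.algebraAdjoinAdjoin in
theorem isAlgebraic_adjoin {k Ω : Type} [Field k] [Field Ω] [Algebra k Ω] (S : Set Ω) (z : Ω)
    (h : IsAlgebraic (IntermediateField.adjoin k S) z) : IsAlgebraic (Algebra.adjoin k S) z :=
  (IsFractionRing.isAlgebraic_iff (Algebra.adjoin k S) (IntermediateField.adjoin k S) Ω).2 h

theorem mat : S_MAT := by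
  intro ι k Ω _ _ _ _ _ ξ I C hI hcard hC
  by_contra hcon
  push Not at hcon
  let M := AlgebraicIndependent.matroid k Ω
  have hinjI : Set.InjOn ξ (I : Set ι) := by
    intro a ha b hb hab
    have := hI.injective (a₁ := ⟨a, ha⟩) (a₂ := ⟨b, hb⟩) hab
    exact congrArg Subtype.val this
  have hind : M.Indep (ξ '' (I : Set ι)) := by
    rw [AlgebraicIndependent.matroid_indep_iff]
    exact (algebraicIndependent_image hinjI).1 hI
  have hcl : ∀ t, ξ t ∈ M.closure (ξ '' (C : Set ι)) := by
    intro t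
    rw [AlgebraicIndependent.matroid_closure_eq, SetLike.mem_coe, Subalgebra.mem_algebraicClosure]
    by_cases ht : t ∈ C
    · exact isAlgebraic_algebraMap
        (⟨ξ t, Algebra.subset_adjoin ⟨t, ht, rfl⟩⟩ : Algebra.adjoin k (ξ '' (C : Set ι)))
    · have h1 := hcon t ht
      rw [Transcendental, not_not] at h1
      exact isAlgebraic_adjoin _ _ h1
  have h1 : (I.card : ℕ∞) ≤ M.eRk (ξ '' (C : Set ι)) := by
    calc (I.card : ℕ∞) = (ξ '' (I : Set ι)).encard := by
          rw [hinjI.encard_image, Set.encard_coe_eq_coe_finsetCard]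
      _ = M.eRk (ξ '' (I : Set ι)) := hind.eRk_eq_encard.symm
      _ ≤ M.eRk (M.closure (ξ '' (C : Set ι))) := by
          refine M.eRk_mono ?_
          rintro _ ⟨t, -, rfl⟩
          exact hcl t
      _ = M.eRk (ξ '' (C : Set ι)) := M.eRk_closure_eq _
  have h2 : M.eRk (ξ '' (C : Set ι)) ≤ (ξ '' (C : Set ι)).encard := M.eRk_le_encard _
  have h3 : (ξ '' (C : Set ι)).encard ≤ (C.card : ℕ∞) := by
    rw [← Set.encard_coe_eq_coe_finsetCard]
    exact Set.encard_image_le _ _
  have h4 : (C.card : ℕ∞) ≤ I.card := by exact_mod_cast hcard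
  have hfin : (ξ '' (C : Set ι)).Finite := C.finite_toSet.image ξ
  have h5 : M.Indep (ξ '' (C : Set ι)) := by
    rw [Matroid.indep_iff_eRk_eq_encard_of_finite hfin]
    exact le_antisymm h2 ((h3.trans h4).trans h1)
  have h6 : Set.InjOn ξ (C : Set ι) := by
    have h7 : (ξ '' (C : Set ι)).encard = (C : Set ι).encard := by
      rw [Set.encard_coe_eq_coe_finsetCard]
      exact le_antisymm h3 ((h4.trans h1).trans h2)
    exact C.finite_toSet.injOn_of_encard_image_eq h7
  apply hC
  rw [AlgebraicIndependent.matroid_indep_iff] at h5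
  exact (algebraicIndependent_image h6).2 h5

end Pool.Agent.Q299.HB
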